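import Mathlib
import Pool.Agent.Results.MP_94ed3e_ag.FatPoint

set_option autoImplicit false

open MvPolynomial Pool.Agent.Results.MP_94ed3e_ag.FatPoint

namespace Pool.Agent.Y234.FP

universe u

/-- the grading: `deg x = (1,0)` (`x = X 0`), `deg z = (1,1)` (`z = X 1`), `deg y_i = (0,1)`
(`y_i = X (i + 2)`) -/
def wt (r : ℕ) : Fin (r + 2) → ℤ × ℤ := Fin.cons (1, 0) (Fin.cons (1, 1) (fun _ => (0, 1)))

/-- the degree in the `y_i` -/
def yd {r : ℕ} (u : Fin (r + 2) →₀ ℕ) : ℕ := ∑ i : Fin r, u i.succ.succ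

/-- first coordinate of the degree -/
def ax {r : ℕ} (u : Fin (r + 2) →₀ ℕ) : ℕ := u 0 + u 1

/-- second coordinate of the degree -/
def bx {r : ℕ} (u : Fin (r + 2) →₀ ℕ) : ℕ := u 1 + yd u

/-- exponent vectors of the monomial basis in the degrees `(a,b)` with `a < m` -/
abbrev Ix1 (r m : ℕ) : Type :=
  {u : Fin (r + 2) → Fin (2 * m) //
    ((u 0 : ℕ) + (u 1 : ℕ) < m) ∧ ((u 1 : ℕ) + ∑ i : Fin r, (u i.succ.succ : ℕ) ≤ m) ∧
      (∑ i : Fin r, (u i.succ.succ : ℕ) < m)}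

/-- the index set of the functionals -/
abbrev Ix (r m : ℕ) : Type := Ix1 r m ⊕ (Fin m × Fin (m + 1))

/-- the exponent vector as a finitely supported function -/
noncomputable def toE {r m : ℕ} (u : Ix1 r m) : Fin (r + 2) →₀ ℕ :=
  Finsupp.equivFunOnFinite.symm fun j => (u.1 j : ℕ)

/-- the degree attached to an index -/
noncomputable def dg {r m : ℕ} : Ix r m → ℤ × ℤ
  | Sum.inl u => ((ax (toE u) : ℤ), (bx (toE u) : ℤ))
  | Sum.inr p => (((m + (p.1 : ℕ) : ℕ) : ℤ), ((p.2 : ℕ) : ℤ))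

open Classical in
/-- the Hilbert function -/
noncomputable def hf (r m : ℕ) (a : ℤ × ℤ) : ℕ := (Finset.univ.filter fun i : Ix r m => dg i = a).card

/-- all monomials of degree `m` in the `β_i` vanish -/
def Nilp {T : Type u} [CommRing T] {r : ℕ} (m : ℕ) (β : Fin r → T) : Prop :=
  ∀ α : Fin r → ℕ, ∑ i, α i = m → ∏ i, β i ^ α i = 0

/-- the point `x = z = 1`, `y_i = - β_i` -/
def pt {T : Type u} [CommRing T] {r : ℕ} (β : Fin r → T) : Fin (r + 2) → T :=
  Fin.cons 1 (Fin.cons 1 (fun i => - β i))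

/-- the functionals -/
noncomputable def fn {T : Type u} [CommRing T] {r : ℕ} (m : ℕ) (β : Fin r → T) :
    Ix r m → (MvPolynomial (Fin (r + 2)) T →ₗ[T] T)
  | Sum.inl u => lcoeff T (toE u)
  | Sum.inr p => (aeval (pt β)).toLinearMap ∘ₗ
      (weightedHomogeneousComponent (wt r) (dg (Sum.inr p : Ix r m)) :
        MvPolynomial (Fin (r + 2)) T →ₗ[T] MvPolynomial (Fin (r + 2)) T)

/-- WE: the weight of an exponent vector -/
def St_WE : Prop := ∀ (r : ℕ) (u : Fin (r + 2) →₀ ℕ),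
  Finsupp.weight (wt r) u = ((ax u : ℤ), (bx u : ℤ))

/-- ST: the common kernel of the functionals is stable under the variables -/
def St_ST : Prop := ∀ (T : Type u) [CommRing T] (r m : ℕ) (β : Fin r → T), 1 ≤ m → Nilp m β →
  ∀ F : MvPolynomial (Fin (r + 2)) T, (∀ i : Ix r m, fn m β i F = 0) →
    ∀ j, ∀ i : Ix r m, fn m β i (X j * F) = 0

/-- the ideal cut out by functionals -/
def idl {T : Type u} [CommRing T] {n : ℕ} {ι : Type} (l : ι → MvPolynomial (Fin n) T →ₗ[T] T)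
    (hl : ∀ F, (∀ i, l i F = 0) → ∀ j i, l i (X j * F) = 0) : Ideal (MvPolynomial (Fin n) T) where
  carrier := {F | ∀ i, l i F = 0}
  add_mem' := by
    intro F G hF hG i
    rw [map_add, hF i, hG i, add_zero]
  zero_mem' := fun i => map_zero _
  smul_mem' := by
    intro G F hF
    rw [smul_eq_mul]
    induction G using MvPolynomial.induction_on with
    | C r =>
      intro i
      rw [← smul_eq_C_mul, map_smul, hF i, smul_zero]
    | add p q hp hq =>
      intro i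
      rw [add_mul, map_add, hp i, hq i, add_zero]
    | mul_X p j hp =>
      rw [mul_comm p, mul_assoc]
      exact hl _ hp j

/-- `I` is the ideal of all `F` on which the functionals vanish -/
def IsI {T : Type u} [CommRing T] {r : ℕ} (m : ℕ) (β : Fin r → T)
    (I : Ideal (MvPolynomial (Fin (r + 2)) T)) : Prop :=
  ∀ F, F ∈ I ↔ ∀ i : Ix r m, fn m β i F = 0

/-- HI: the ideal is a point of the Hilbert functor -/
def St_HI : Prop := ∀ (T : Type u) [CommRing T] (r m : ℕ) (β : Fin r → T), 1 ≤ m →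
  ∀ I : Ideal (MvPolynomial (Fin (r + 2)) T), IsI m β I → I ∈ hilb (wt r) (hf r m) T

/-- the relations which generate the ideal -/
def Gens {T : Type u} [CommRing T] {r : ℕ} (m : ℕ) (β : Fin r → T)
    (J : Ideal (MvPolynomial (Fin (r + 2)) T)) : Prop :=
  (∀ u : Fin (r + 2) →₀ ℕ, (2 * m ≤ ax u ∨ m < bx u) → monomial u (1 : T) ∈ J) ∧
  (∀ u : Fin (r + 2) →₀ ℕ, m ≤ yd u → monomial u (1 : T) ∈ J) ∧
  (∀ (v : Fin (r + 2) →₀ ℕ) (i : Fin r), m ≤ ax v + 1 → ax v + 1 ≤ 2 * m - 1 → bx v + 1 ≤ m →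
    monomial v (1 : T) * (X 0 * X i.succ.succ + C (β i) * X 1) ∈ J)

/-- GE: the ideal contains the relations -/
def St_GE : Prop := ∀ (T : Type u) [CommRing T] (r m : ℕ) (β : Fin r → T), 1 ≤ m → Nilp m β →
  ∀ I : Ideal (MvPolynomial (Fin (r + 2)) T), IsI m β I → Gens m β I

/-- SP: the ideal is the smallest one which contains the relations -/
def St_SP : Prop := ∀ (T : Type u) [CommRing T] (r m : ℕ) (β : Fin r → T), 1 ≤ m →
  ∀ I J : Ideal (MvPolynomial (Fin (r + 2)) T), IsI m β I → Gens m β J → I ≤ J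

/-- UQ: the parameters are determined by the ideal -/
def St_UQ : Prop := ∀ (T : Type u) [CommRing T] (r m : ℕ) (β β' : Fin r → T), 2 ≤ m →
  ∀ I : Ideal (MvPolynomial (Fin (r + 2)) T), IsI m β I → IsI m β' I → β = β'

/-- NA: compatibility with change of rings -/
def St_NA : Prop := ∀ (T T' : Type u) [CommRing T] [CommRing T'] (φ : T →+* T') (r m : ℕ)
  (β : Fin r → T), 1 ≤ m → Nilp m β → ∀ (I : Ideal (MvPolynomial (Fin (r + 2)) T))
  (I' : Ideal (MvPolynomial (Fin (r + 2)) T')), IsI m β I → IsI m (fun i => φ (β i)) I' →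
  Ideal.map (MvPolynomial.map φ) I = I'

/-- HV: values of the Hilbert function -/
def St_HV : Prop := ∀ (r m : ℕ), 1 ≤ m →
  (∀ u : Fin (r + 2) →₀ ℕ, (2 * m ≤ ax u ∨ m < bx u) → hf r m ((ax u : ℤ), (bx u : ℤ)) = 0) ∧
  (∀ b : ℕ, m ≤ b → hf r m (0, (b : ℤ)) = 0) ∧
  (∀ a b : ℕ, m ≤ a → a < 2 * m → b ≤ m → hf r m ((a : ℤ), (b : ℤ)) = 1)

/-- ZG: for a point of the Hilbert functor `x ^ (m-1) z` is a generator in degree `(m,1)` -/
def St_ZG : Prop := ∀ (T : Type u) [CommRing T] (r m : ℕ), 2 ≤ m →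
  ∀ I : Ideal (MvPolynomial (Fin (r + 2)) T), I ∈ hilb (wt r) (hf r m) T →
  ∀ i : Fin r, ∃ β : T, X 0 ^ (m - 1) * (X 0 * X i.succ.succ + C β * X 1) ∈ I

/-- CO: completeness -/
def St_CO : Prop := ∀ (T : Type u) [CommRing T] (r m : ℕ), 2 ≤ m →
  ∀ I : Ideal (MvPolynomial (Fin (r + 2)) T), I ∈ hilb (wt r) (hf r m) T →
  ∀ β : Fin r → T, (∀ i, X 0 ^ (m - 1) * (X 0 * X i.succ.succ + C (β i) * X 1) ∈ I) →
  Nilp m β ∧ Gens m β I

/-- the ring of the fat point -/
abbrev Bq (k : Type u) [Field k] (r m : ℕ) : Type u :=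
  MvPolynomial (Fin r) k ⧸ (Ideal.span (Set.range (X : Fin r → MvPolynomial (Fin r) k))) ^ m

/-- BH: points of the spectrum of the ring -/
def St_BH : Prop := ∀ (k : Type u) [Field k] (r m : ℕ), 
  ∃ E : ∀ (T : Type u) [CommRing T] [Algebra k T], (Bq k r m →ₐ[k] T) ≃ {β : Fin r → T // Nilp m β},
    ∀ (T : Type u) [CommRing T] [Algebra k T] (f : Bq k r m →ₐ[k] T) (i : Fin r),
      (E T f).1 i = f (Ideal.Quotient.mk _ (X i))

/-- BL: the ring is a fat point -/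
def St_BL : Prop := ∀ (k : Type u) [Field k] (r m : ℕ), 1 ≤ r → 2 ≤ m →
  IsLocalRing (Bq k r m) ∧ IsArtinianRing (Bq k r m) ∧ ¬ IsField (Bq k r m) ∧
    Subsingleton (PrimeSpectrum (Bq k r m)) ∧
    Module.finrank k (Bq k r m) = (r + m - 1).choose r

end Pool.Agent.Y234.FP
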