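import Mathlib
import Pool.Agent.Y234.FP.Stm

set_option autoImplicit false

open MvPolynomial Pool.Agent.Results.MP_94ed3e_ag.FatPoint

namespace Pool.Agent.Y234.FP

universe u

section

variable (hWE : St_WE) (hST : St_ST.{u}) (hHI : St_HI.{u}) (hGE : St_GE.{u}) (hSP : St_SP.{u})
  (hUQ : St_UQ.{u}) (hNA : St_NA.{u}) (hHV : St_HV) (hZG : St_ZG.{u}) (hCO : St_CO.{u})
  (hBH : St_BH.{u}) (hBL : St_BL.{u})

/-- the ideal with parameters `β` -/
noncomputable def fatI {T : Type u} [CommRing T] {r m : ℕ} (β : Fin r → T) (hm : 1 ≤ m)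
    (hβ : Nilp m β) (hST : St_ST.{u}) : Ideal (MvPolynomial (Fin (r + 2)) T) :=
  idl (fn m β) (hST T r m β hm hβ)

lemma isI {T : Type u} [CommRing T] {r m : ℕ} (β : Fin r → T) (hm : 1 ≤ m)
    (hβ : Nilp m β) (hST : St_ST.{u}) : IsI m β (fatI β hm hβ hST) := fun _ => Iff.rfl

/-- the parametrisation of the Hilbert functor -/
noncomputable def fatE (hHI : St_HI.{u}) (hSP : St_SP.{u}) (hUQ : St_UQ.{u}) (hZG : St_ZG.{u})
    (hCO : St_CO.{u}) (hST : St_ST.{u}) {r m : ℕ} (hm : 2 ≤ m) (T : Type u) [CommRing T] :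
    {β : Fin r → T // Nilp m β} ≃ hilb (wt r) (hf r m) T :=
  Equiv.ofBijective (fun b => ⟨fatI b.1 (by omega) b.2 hST,
      hHI T r m b.1 (by omega) _ (isI b.1 (by omega) b.2 hST)⟩) (by
    constructor
    · intro b b' hbb'
      have h1 : fatI b.1 (by omega) b.2 hST = fatI b'.1 (by omega) b'.2 hST :=
        congrArg Subtype.val hbb'
      have h2 : IsI m b'.1 (fatI b.1 (by omega) b.2 hST) := by
        have h3 := isI b'.1 (m := m) (by omega) b'.2 hST
        rw [← h1] at h3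
        exact h3
      exact Subtype.ext (hUQ T r m b.1 b'.1 hm _ (isI b.1 (by omega) b.2 hST) h2)
    · rintro ⟨I, hI⟩
      choose β hβ using hZG T r m hm I hI
      obtain ⟨h1, h2⟩ := hCO T r m hm I hI β hβ
      refine ⟨⟨β, h1⟩, Subtype.ext ?_⟩
      have h3 := isI β (m := m) (by omega) h1 hST
      exact eq_of_le_of_mem_hilb (hHI T r m β (by omega) _ h3) hI
        (hSP T r m β (by omega) _ I h3 h2))

open CategoryTheory AlgebraicGeometry

include hST hHI hSP hUQ hNA hZG hCO hBH hBL in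
theorem main (k : Type u) [Field k] (r m : ℕ) (hr : 1 ≤ r) (hm : 2 ≤ m) :
    RepresentsHilb k (wt r) (hf r m) (Spec (CommRingCat.of (Bq k r m)))
      (Spec.map (CommRingCat.ofHom (algebraMap k (Bq k r m)))) ∧
    HasFatPointComponent k (Spec (CommRingCat.of (Bq k r m)))
      (Spec.map (CommRingCat.ofHom (algebraMap k (Bq k r m)))) ∧
    Module.finrank k (Bq k r m) = (r + m - 1).choose r := by
  obtain ⟨h1, h2, h3, h4, h5⟩ := hBL k r m hr hm
  obtain ⟨E, hE⟩ := hBH k r m
  refine ⟨?_, ?_, h5⟩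
  · refine representsHilb_Spec (fun T _ _ => (E T).trans (fatE hHI hSP hUQ hZG hCO hST hm T)) ?_
    intro T T' _ _ _ _ φ f
    symm
    have e1 : (fun i => φ ((E T f).1 i)) = (E T' (φ.comp f)).1 := by
      funext i
      rw [hE, hE]
      rfl
    have h6 := isI (E T' (φ.comp f)).1 (m := m) (by omega) (E T' (φ.comp f)).2 hST
    have h7 : IsI m (fun i => (φ : T →+* T') ((E T f).1 i))
        (fatI (E T' (φ.comp f)).1 (m := m) (by omega) (E T' (φ.comp f)).2 hST) := by
      have e2 : (fun i => (φ : T →+* T') ((E T f).1 i)) = (E T' (φ.comp f)).1 := e1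
      rw [e2]
      exact h6
    exact hNA T T' (φ : T →+* T') r m (E T f).1 (by omega) (E T f).2 _ _
      (isI (E T f).1 (m := m) (by omega) (E T f).2 hST) h7
  · refine ⟨⊤, isClosed_univ, ?_, Bq k r m, inferInstance, inferInstance, Scheme.topIso _, h1, h2,
      h3, rfl⟩
    refine ⟨?_, ?_⟩
    · exact ⟨IsLocalRing.closedPoint (Bq k r m), trivial⟩
    · exact Set.Subsingleton.isPreconnected (fun x _ y _ => h4.elim x y)

end

end Pool.Agent.Y234.FP
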